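import Mathlib
import Pool.Agent.Q141.Join.Fam

set_option autoImplicit false

/-!
# MP_1b21e4_co: spheres in `S(k-1, 2k-1)` with `g_k = 1` which are not of the form `K(i, 2k-1)`
-/

namespace Pool.Agent.Results.MP_1b21e4_co.TripleJoin

open Finset Pool.Agent.Q141.Join

/-- the vertices of the simplex number `j` -/
def block {m : ℕ} (a : Fin m → ℕ) (j : Fin m) : Finset (Σ j : Fin m, Fin (a j + 1)) :=
  univ.filter fun p => p.1 = j

lemma block_eq {m : ℕ} (a : Fin m → ℕ) (j : Fin m) :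
    block a j = univ.map (Function.Embedding.sigmaMk j) := by
  ext ⟨i, x⟩
  simp only [block, mem_filter, mem_univ, true_and, mem_map, Function.Embedding.sigmaMk_apply]
  constructor
  · rintro rfl
    exact ⟨x, rfl⟩
  · rintro ⟨y, hy⟩
    exact (congrArg Sigma.fst hy).symm

lemma card_block {m : ℕ} (a : Fin m → ℕ) (j : Fin m) : (block a j).card = a j + 1 := by
  rw [block_eq, card_map, card_univ, Fintype.card_fin]

lemma block_disj {m : ℕ} (a : Fin m → ℕ) (i j : Fin m) (h : i ≠ j) :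
    Disjoint (block a i) (block a j) := by
  rw [disjoint_left]
  intro p hp hq
  simp only [block, mem_filter, mem_univ, true_and] at hp hq
  exact h (hp.symm.trans hq)

lemma cover {m : ℕ} (a : Fin m → ℕ) (p : Σ j : Fin m, Fin (a j + 1)) :
    p ∈ univ.biUnion (block a) := by
  rw [mem_biUnion]
  exact ⟨p.1, mem_univ _, by simp [block]⟩

lemma joinBd_eq {m : ℕ} (a : Fin m → ℕ) : joinBd a = J (block a) univ := by
  ext F
  rw [mem_J]
  simp only [joinBd, mem_filter, mem_univ, true_and]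
  constructor
  · intro h
    refine ⟨fun p _ => cover a p, fun j _ hj => ?_⟩
    obtain ⟨x, hx⟩ := h j
    exact hx (hj (by simp [block]))
  · rintro ⟨-, h⟩ j
    obtain ⟨p, hp, hp2⟩ := not_subset.1 (h j trivial)
    simp only [block, mem_filter, mem_univ, true_and] at hp
    subst hp
    exact ⟨p.2, hp2⟩

lemma block_nonempty {m : ℕ} (a : Fin m → ℕ) (j : Fin m) : (block a j).Nonempty := by
  rw [← card_pos, card_block]; omega

lemma missing_joinBd {m : ℕ} (a : Fin m → ℕ) (τ : Finset (Σ j : Fin m, Fin (a j + 1))) :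
    IsMissing (joinBd a) τ ↔ ∃ j, τ = block a j := by
  rw [joinBd_eq, missing_J (block a) univ (fun i _ j _ h => block_disj a i j h)
    (fun j _ => block_nonempty a j) (cover a)]
  simp

lemma isSphere_joinBd {m : ℕ} (a : Fin m → ℕ) (h : ∀ j, 1 ≤ a j) :
    IsSphere (∑ j, a j) (joinBd a) := by
  have h1 := isSphere_J (block a) univ (fun j _ => by rw [card_block]; have := h j; omega)
    (fun i _ j _ h => block_disj a i j h) (cover a)
  rw [joinBd_eq]
  have e : ∑ j, ((block a j).card - 1) = ∑ j, a j := by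
    apply sum_congr rfl
    intro j _
    rw [card_block]; rfl
  rw [e] at h1
  exact h1

open Polynomial in
lemma hPoly_joinBd {m : ℕ} (a : Fin m → ℕ) :
    hPoly (∑ j, a j) (joinBd a) = ∏ j, ∑ i ∈ range (a j + 1), (X : ℤ[X]) ^ i := by
  have h1 := hPoly_J (block a) univ (fun j _ => block_nonempty a j)
    (fun i _ j _ h => block_disj a i j h)
  rw [joinBd_eq]
  have e : ∑ j, ((block a j).card - 1) = ∑ j, a j := by
    apply sum_congr rfl
    intro j _
    rw [card_block]; rfl
  rw [e] at h1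
  rw [h1]
  apply prod_congr rfl
  intro j _
  rw [card_block]

lemma isMissing_map {β γ : Type} [Fintype β] [DecidableEq β] [Fintype γ] [DecidableEq γ]
    (X : Finset (Finset β)) (Y : Finset (Finset γ)) (e : β ≃ γ)
    (he : ∀ F : Finset β, F ∈ X ↔ F.map e.toEmbedding ∈ Y) (τ : Finset β) (h : IsMissing X τ) :
    IsMissing Y (τ.map e.toEmbedding) := by
  refine ⟨fun h2 => h.1 ((he τ).2 h2), fun ρ hρ => ?_⟩
  have e1 : (ρ.map e.symm.toEmbedding).map e.toEmbedding = ρ := by
    rw [map_map]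
    ext x
    simp
  rw [← e1, ← he]
  apply h.2
  constructor
  · intro x hx
    rw [mem_map] at hx
    obtain ⟨y, hy, rfl⟩ := hx
    have := hρ.1 hy
    rw [mem_map] at this
    obtain ⟨z, hz, rfl⟩ := this
    simpa using hz
  · intro h3
    apply hρ.2
    intro x hx
    rw [mem_map] at hx
    obtain ⟨y, hy, rfl⟩ := hx
    have := h3 hy
    rw [mem_map] at this
    obtain ⟨z, hz, rfl⟩ := this
    simpa using hz

lemma not_iso_gen {m : ℕ} (a : Fin 3 → ℕ) (b : Fin m → ℕ) (k : ℕ) (h0 : a 0 + 1 = k)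
    (h1 : a 1 + 1 ≠ k) (h2 : a 2 + 1 ≠ k) (hb : ∀ j, b j + 1 = k → ∃ j', j' ≠ j ∧ b j' + 1 = k) :
    ¬ Iso (joinBd a) (joinBd b) := by
  rintro ⟨e, he⟩
  have hsymm : ∀ F, F ∈ joinBd b ↔ F.map e.symm.toEmbedding ∈ joinBd a := by
    intro F
    rw [he]
    have e1 : (F.map e.symm.toEmbedding).map e.toEmbedding = F := by
      rw [map_map]
      ext x
      simp
    rw [e1]
  -- missing faces of the second complex with k vertices
  have huniq : ∀ j, b j + 1 = k → (block b j).map e.symm.toEmbedding = block a 0 := by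
    intro j hj
    have h3 := isMissing_map (joinBd b) (joinBd a) e.symm hsymm _ ((missing_joinBd b _).2 ⟨j, rfl⟩)
    rw [missing_joinBd] at h3
    obtain ⟨l, hl⟩ := h3
    have h4 := congrArg Finset.card hl
    rw [card_map, card_block, card_block, hj] at h4
    rw [hl]
    congr 1
    fin_cases l
    · rfl
    · exact absurd h4.symm h1
    · exact absurd h4.symm h2
  have h3 := isMissing_map (joinBd a) (joinBd b) e he _ ((missing_joinBd a _).2 ⟨0, rfl⟩)
  rw [missing_joinBd] at h3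
  obtain ⟨j, hj⟩ := h3
  have h4 := congrArg Finset.card hj
  rw [card_map, card_block, card_block, h0] at h4
  obtain ⟨j', hne, h7⟩ := hb j h4.symm
  have h8 := (huniq j h4.symm).trans (huniq j' h7).symm
  have h9 := map_injective _ h8
  have h10 := block_disj b j' j hne
  rw [h9] at h10
  obtain ⟨x, hx⟩ := block_nonempty b j'
  exact disjoint_left.1 h10 hx hx

lemma not_iso (k : ℕ) (hk : 5 ≤ k) (i : ℕ) (h1 : 2 * k ≤ 3 * i) (h2 : i < k) :
    ¬ Iso (joinBd ![k - 1, k - 2, 3]) (joinBd (Kdim i (2 * k))) := by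
  have hq : (2 * k - 1) / i = 2 := by
    rw [Nat.div_eq_iff (by omega)]
    omega
  apply not_iso_gen _ _ k
  · simp; omega
  · simp; omega
  · simp; omega
  · intro j hj
    have hv : ∀ l : Fin ((2 * k - 1) / i + 1), l.val < 2 → Kdim i (2 * k) l = i := by
      intro l hl
      unfold Kdim
      rw [if_pos]
      omega
    by_cases hj2 : j.val < 2
    · rw [hv j hj2] at hj
      by_cases h0 : j.val = 0
      · refine ⟨⟨1, by omega⟩, ?_, by rw [hv _ (by simp)]; exact hj⟩
        intro h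
        rw [← h] at h0
        simp at h0
      · refine ⟨⟨0, by omega⟩, ?_, by rw [hv _ (by simp)]; exact hj⟩
        intro h
        rw [← h] at h0
        simp at h0
    · exfalso
      have : Kdim i (2 * k) j = 2 * k - (2 * k - 1) / i * i := by
        unfold Kdim
        rw [if_neg]
        omega
      rw [this, hq] at hj
      omega

open Polynomial in
lemma gNum_eq (k : ℕ) (hk : 5 ≤ k) : gNum (2 * k) (joinBd ![k - 1, k - 2, 3]) k = 1 := by
  unfold gNum hNum
  rw [if_neg (by omega)]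
  have hsum : ∑ j, (![k - 1, k - 2, 3] : Fin 3 → ℕ) j = 2 * k := by
    simp [Fin.sum_univ_three]
    omega
  have h1 := hPoly_joinBd ![k - 1, k - 2, 3]
  rw [hsum, Fin.prod_univ_three] at h1
  simp only [Matrix.cons_val_zero, Matrix.cons_val_one, Matrix.cons_val] at h1
  rw [h1]
  have e1 : 2 * k - k = k := by omega
  have e2 : 2 * k - (k - 1) = k + 1 := by omega
  have e3 : k - 1 + 1 = k := by omega
  have e4 : k - 2 + 1 = k - 1 := by omega
  rw [e1, e2, e3, e4]
  set P := (∑ i ∈ range k, (X : ℤ[X]) ^ i) * (∑ i ∈ range (k - 1), X ^ i) * (∑ i ∈ range (3 + 1), X ^ i)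
    with hP
  have h2 : P.coeff k - P.coeff (k + 1) = ((X - 1) * P).coeff (k + 1) := by
    rw [sub_mul, coeff_sub, coeff_X_mul, one_mul]
  rw [h2]
  have h3 : (X - 1) * P = (X ^ k - 1) * ((∑ i ∈ range (k - 1), X ^ i) * (1 + X + X ^ 2 + X ^ 3)) := by
    rw [hP, ← mul_geom_sum (X : ℤ[X]) k]
    simp only [sum_range_succ, range_zero, sum_empty, zero_add, pow_zero, pow_one]
    ring
  rw [h3]
  set Q := (∑ i ∈ range (k - 1), (X : ℤ[X]) ^ i) * (1 + X + X ^ 2 + X ^ 3) with hQ
  have hG : ∀ n, (∑ i ∈ range (k - 1), (X : ℤ[X]) ^ i).coeff n = if n < k - 1 then 1 else 0 := by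
    intro n
    rw [finsetSum_coeff]
    simp only [coeff_X_pow]
    simp
  have hQ' : Q = (∑ i ∈ range (k - 1), (X : ℤ[X]) ^ i) + (∑ i ∈ range (k - 1), (X : ℤ[X]) ^ i) * X +
      (∑ i ∈ range (k - 1), (X : ℤ[X]) ^ i) * X ^ 2 + (∑ i ∈ range (k - 1), (X : ℤ[X]) ^ i) * X ^ 3 := by
    rw [hQ]; ring
  have h4 : ((X ^ k - 1) * Q).coeff (k + 1) = Q.coeff 1 - Q.coeff (k + 1) := by
    rw [sub_mul, one_mul, coeff_sub, Nat.add_comm k 1, coeff_X_pow_mul]
  rw [h4]
  obtain ⟨n, rfl⟩ : ∃ n, k = n + 5 := ⟨k - 5, by omega⟩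
  have h5 : Q.coeff 1 = 2 := by
    rw [hQ']
    simp only [coeff_add, coeff_mul_X_pow', hG, coeff_mul_X]
    simp
  have h6 : Q.coeff (n + 5 + 1) = 1 := by
    rw [hQ']
    simp only [coeff_add, coeff_mul_X_pow', hG]
    simp
  rw [h5, h6]
  norm_num

/-- For every `k ≥ 5` the join of the boundary complexes of simplices of dimensions `k-1`, `k-2`, `3`
lies in `S(k-1, 2k-1)`, has `g_k = 1`, and is not isomorphic to `K(i, 2k-1)` for any `i` with
`2k/3 ≤ i < k`. -/
theorem result (k : ℕ) (hk : 5 ≤ k) :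
    InS (k - 1) (2 * k) (joinBd ![k - 1, k - 2, 3]) ∧
      gNum (2 * k) (joinBd ![k - 1, k - 2, 3]) k = 1 ∧
      ∀ i : ℕ, 2 * k ≤ 3 * i → i < k →
        ¬ Iso (joinBd ![k - 1, k - 2, 3]) (joinBd (Kdim i (2 * k))) := by
  refine ⟨⟨?_, ?_⟩, gNum_eq k hk, not_iso k hk⟩
  · have h1 := isSphere_joinBd ![k - 1, k - 2, 3] (by
      intro j
      fin_cases j <;> simp <;> omega)
    have hsum : ∑ j, (![k - 1, k - 2, 3] : Fin 3 → ℕ) j = 2 * k := by
      simp [Fin.sum_univ_three]
      omega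
    rw [hsum] at h1
    exact h1
  · intro τ hτ
    rw [missing_joinBd] at hτ
    obtain ⟨j, rfl⟩ := hτ
    rw [card_block]
    fin_cases j <;> simp <;> omega

end Pool.Agent.Results.MP_1b21e4_co.TripleJoin
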